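import Mathlib
import Pool.Agent.H76.Specker.Defs
import Pool.Agent.H76.Specker.Binary
import Pool.Agent.H76.Specker.Unary

/-!
Substructure-closed classes of finite structures with a Specker function that is not MC-finite
exist exactly for those finite relational vocabularies of arity at most two that contain a
binary relation symbol.

Proof idea for the existence part: let `F t` be the cycle of length `t + 5` whose `i`-th vertex
is blown up to an independent set of size `2 ^ i`. These graphs form an antichain for the induced
subgraph order, and the number of labelled copies of `F t` is an odd multinomial coefficient.
Hence different sets of forbidden `F t` give different parity sequences, so there are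
uncountably many of them, while only countably many sequences are ultimately periodic.
-/

set_option autoImplicit false

open CategoryTheory

namespace Pool.Agent.Results.MP_602553_lc.BinaryDichotomy

open Pool.Agent.H76.Specker

/-- Sanity check: for a finite relational vocabulary with symbols of arity at most two there are
only finitely many structures with universe `Fin n`, so `specker` counts them. -/
theorem finite_structures (L : FirstOrder.Language.{0, 0}) [L.IsRelational]
    [Finite (Σ n, L.Relations n)] (n : ℕ) : Finite (L.Structure (Fin n)) := by
  classical
  let P := ∀ p : Σ k, L.Relations k, Set (Fin p.1 → Fin n)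
  have : Finite P := inferInstance
  refine Finite.of_injective (β := P)
    (fun S p => {x | S.RelMap p.2 x}) ?_
  intro S S' h
  apply structure_ext
  intro k Q x
  have h1 := congrFun h ⟨k, Q⟩
  exact Set.ext_iff.1 h1 x

/-- Main theorem. -/
theorem result (L : FirstOrder.Language.{0, 0}) [L.IsRelational]
    [Finite (Σ n, L.Relations n)] (hL : ∀ n, 2 < n → IsEmpty (L.Relations n)) :
    (∃ K : Set (Bundled.{0} L.Structure), SubstructureClosed L K ∧
      ¬ MCFinite (fun n => (specker L K n : ℤ))) ↔ Nonempty (L.Relations 2) := by
  constructor
  · rintro ⟨K, hK, hnot⟩
    by_contra hne
    rw [not_nonempty_iff] at hne
    refine hnot (mcFinite_of_unary (fun n hn => ?_) K hK)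
    rcases Nat.lt_or_eq_of_le hn with h | h
    · exact hL n h
    · subst h; exact hne
  · rintro ⟨R⟩
    exact exists_not_mcFinite R

end Pool.Agent.Results.MP_602553_lc.BinaryDichotomy
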